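import Pool.Agent.Lib.MP_69a69c_lc_TS.Defs

/-!
# Programs with a sparse oracle can be simulated without oracle

Instead of the query tape, the simulating program keeps the node of the trie of the oracle (the
prefixes of the words of the oracle) at which the query tape is, or a dead node.
-/

set_option autoImplicit false

namespace Pool.Agent.SparseTS

open Pool.Agent.LT

variable {n w : ℕ}

theorem finite_words (A : Set (List Bool)) (m : ℕ) : {q ∈ A | q.length = m}.Finite :=
  (List.finite_length_eq Bool m).subset fun _ h => h.2

open Classical in
/-- the words of length at most `T` of the oracle -/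
noncomputable def words (A : Set (List Bool)) (T : ℕ) : Finset (List Bool) :=
  (Finset.range (T + 1)).biUnion fun m => (finite_words A m).toFinset

theorem mem_words {A : Set (List Bool)} {T : ℕ} {q : List Bool} :
    q ∈ words A T ↔ q ∈ A ∧ q.length ≤ T := by
  classical
  unfold words
  simp only [Finset.mem_biUnion, Finset.mem_range, Set.Finite.mem_toFinset, Set.mem_setOf_eq]
  constructor
  · rintro ⟨m, h1, h2, rfl⟩
    exact ⟨h2, by omega⟩
  · rintro ⟨h1, h2⟩
    exact ⟨q.length, by omega, h1, rfl⟩

theorem card_words {A : Set (List Bool)} {c : ℕ} (hA : AtMostPerLength A c) (T : ℕ) :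
    (words A T).card ≤ (T + 1) * c := by
  classical
  unfold words
  refine Finset.card_biUnion_le.trans ?_
  refine (Finset.sum_le_sum (g := fun _ => c) fun m _ => ?_).trans ?_
  · rw [← Set.ncard_eq_toFinset_card _ (finite_words A m)]
    exact hA m
  · simp

open Classical in
/-- the nodes of the trie -/
noncomputable def nodes (A : Set (List Bool)) (T : ℕ) : Finset (List Bool) :=
  ((words A T) ×ˢ (Finset.range (T + 1))).image fun z => z.1.take z.2

theorem card_nodes {A : Set (List Bool)} {c : ℕ} (hA : AtMostPerLength A c) (T : ℕ) :
    (nodes A T).card ≤ c * (T + 1) ^ 2 := by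
  classical
  unfold nodes
  refine Finset.card_image_le.trans ?_
  rw [Finset.card_product, Finset.card_range]
  calc (words A T).card * (T + 1) ≤ ((T + 1) * c) * (T + 1) :=
        Nat.mul_le_mul_right _ (card_words hA T)
    _ = c * (T + 1) ^ 2 := by ring

/-- a word of the oracle is a node -/
theorem mem_nodes_of_mem {A : Set (List Bool)} {T : ℕ} {q : List Bool} (h : q ∈ A)
    (hT : q.length ≤ T) : q ∈ nodes A T := by
  classical
  unfold nodes
  refine Finset.mem_image.2 ⟨(q, q.length), ?_, by simp⟩
  rw [Finset.mem_product]
  exact ⟨mem_words.2 ⟨h, hT⟩, Finset.mem_range.2 (by simpa using Nat.lt_succ_of_le hT)⟩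

/-- a prefix of a node is a node -/
theorem mem_nodes_of_append {A : Set (List Bool)} {T : ℕ} {p r : List Bool}
    (h : p ++ r ∈ nodes A T) : p ∈ nodes A T := by
  classical
  unfold nodes at h ⊢
  obtain ⟨⟨q, k⟩, h1, h2⟩ := Finset.mem_image.1 h
  rw [Finset.mem_product] at h1
  simp only at h1 h2
  have h3 : p = q.take p.length := by
    have h4 : (q.take k).take p.length = p := by rw [h2]; simp
    rw [List.take_take] at h4
    have h5 : p.length ≤ k := by
      have := congrArg List.length h2
      simp only [List.length_take, List.length_append] at this
      omega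
    rw [min_eq_left h5] at h4
    exact h4.symm
  refine Finset.mem_image.2 ⟨(q, p.length), ?_, h3.symm⟩
  rw [Finset.mem_product]
  refine ⟨h1.1, Finset.mem_range.2 ?_⟩
  have h4 := (mem_words.1 h1.1).2
  have := congrArg List.length h2
  simp only [List.length_take, List.length_append] at this
  simp only
  omega

/-- states of the simulating program -/
abbrev St (w : ℕ) (A : Set (List Bool)) (T : ℕ) := Fin w × Option {p // p ∈ nodes A T}

open Classical in
/-- the node of a word (`none`, the dead node, if it is not a prefix of a word of the oracle) -/
noncomputable def node (A : Set (List Bool)) (T : ℕ) (p : List Bool) :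
    Option {p // p ∈ nodes A T} :=
  if h : p ∈ nodes A T then some ⟨p, h⟩ else none

/-- appending bits to a node -/
noncomputable def ext (A : Set (List Bool)) (T : ℕ) (o : Option {p // p ∈ nodes A T})
    (r : List Bool) : Option {p // p ∈ nodes A T} :=
  match o with
  | none => none
  | some p => node A T (p.1 ++ r)

theorem ext_node (A : Set (List Bool)) (T : ℕ) (p r : List Bool) :
    ext A T (node A T p) r = node A T (p ++ r) := by
  classical
  by_cases h : p ∈ nodes A T
  · have : node A T p = some ⟨p, h⟩ := dif_pos h
    rw [this]
    rfl
  · have h1 : node A T p = none := dif_neg h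
    have h2 : node A T (p ++ r) = none := dif_neg fun h3 => h (mem_nodes_of_append h3)
    rw [h1, h2]
    rfl

open Classical in
/-- the answer of the oracle at a node -/
noncomputable def ans (A : Set (List Bool)) (T : ℕ) (o : Option {p // p ∈ nodes A T}) : Bool :=
  match o with
  | none => false
  | some p => decide (p.1 ∈ A)

open Classical in
theorem ans_node {A : Set (List Bool)} {T : ℕ} {q : List Bool} (hT : q.length ≤ T) :
    ans A T (node A T q) = decide (q ∈ A) := by
  by_cases h : q ∈ nodes A T
  · have : node A T q = some ⟨q, h⟩ := dif_pos h
    rw [this]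
    rfl
  · have h1 : node A T q = none := dif_neg h
    rw [h1]
    have h2 : q ∉ A := fun h3 => h (mem_nodes_of_mem h3 hT)
    simp [ans, h2]

/-- one step of the simulation, after the bit `b` was read -/
noncomputable def sstep {M : ℕ} (P : OProg n M w) (A : Set (List Bool)) (i : Fin M) (b : Bool)
    (s : St w A M) : St w A M :=
  if P.ask i s.1 b then
    (P.next i s.1 b (ans A M (ext A M s.2 (P.write i s.1 b).toList)), node A M [])
  else (P.next i s.1 b false, ext A M s.2 (P.write i s.1 b).toList)

/-- the simulated configuration -/
noncomputable def red (A : Set (List Bool)) (M : ℕ) (c : Fin w × List Bool) : St w A M :=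
  (c.1, node A M c.2)

theorem length_config {M : ℕ} (P : OProg n M w) (A : Set (List Bool)) (x : Inp n) (i : ℕ) :
    (P.config A x i).2.length ≤ min i M := by
  classical
  induction i with
  | zero => simp [OProg.config]
  | succ i ih =>
    by_cases h : i < M
    · have e : P.config A x (i + 1) =
          P.step A ⟨i, h⟩ (readVal x (P.var ⟨i, h⟩ (P.config A x i).1)) (P.config A x i) :=
        dif_pos h
      rw [e]
      unfold OProg.step
      split_ifs
      · simp
      · simp only [List.length_append]
        have h2 : ∀ o : Option Bool, o.toList.length ≤ 1 := by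
          intro o; cases o <;> simp
        have h3 := h2 (P.write ⟨i, h⟩ (P.config A x i).1
          (readVal x (P.var ⟨i, h⟩ (P.config A x i).1)))
        have h4 : min i M = i := min_eq_left h.le
        have h5 : min (i + 1) M = i + 1 := min_eq_left h
        omega
    · have e : P.config A x (i + 1) = P.config A x i := dif_neg h
      rw [e]
      omega

theorem red_step {M : ℕ} (P : OProg n M w) (A : Set (List Bool)) (i : Fin M) (b : Bool)
    (c : Fin w × List Bool) (hc : c.2.length ≤ i) :
    red A M (P.step A i b c) = sstep P A i b (red A M c) := by
  classical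
  have h2 : ∀ o : Option Bool, o.toList.length ≤ 1 := by
    intro o; cases o <;> simp
  unfold OProg.step sstep red
  simp only [ext_node]
  have hi := i.2
  have h3 := h2 (P.write i c.1 b)
  split_ifs with h
  · rw [ans_node]
    rw [List.length_append]
    omega
  · rfl

end Pool.Agent.SparseTS
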