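import Mathlib
import Pool.Agent.Lib.MP_b573ec_lc_LT.Model

/-!
# Oracle programs: space bounded computations with a query tape and few readings of the input

An oracle program is a branching program (nonuniform space `log2 w`, see `Pool.Agent.LT.Prog`)
which has moreover a write-only query tape. The contents of the query tape are not counted as
space, and steps which do not read the input are allowed.
-/

set_option autoImplicit false

namespace Pool.Agent.SparseTS

open Pool.Agent.LT

/-- An oracle program on `n` Boolean variables with `M` steps and `w` states. In step `i` and state
`s` it reads the variable `var i s`, or nothing if this is `none`; let `b` be the value read (`b` is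
`false` if nothing is read). Then it appends the bit `write i s b` to the query tape (nothing if
this is `none`). If `ask i s b` holds it asks the oracle whether the word on the query tape belongs
to it, and the tape is erased. It moves to the state `next i s b a`, where `a` is the answer of the
oracle (`false` if nothing was asked). After step `M` it accepts iff `acc` holds. -/
structure OProg (n M w : ℕ) where
  start : Fin w
  var : Fin M → Fin w → Option (Fin n)
  write : Fin M → Fin w → Bool → Option Bool
  ask : Fin M → Fin w → Bool → Bool
  next : Fin M → Fin w → Bool → Bool → Fin w
  acc : Fin w → Bool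

variable {n M w : ℕ}

/-- the value read: `false` if nothing is read -/
def readVal (x : Inp n) : Option (Fin n) → Bool
  | none => false
  | some v => x v

open Classical in
/-- step `i` of the program with the oracle `A`, after the bit `b` was read, from the state `c.1`
with the word `c.2` on the query tape -/
noncomputable def OProg.step (P : OProg n M w) (A : Set (List Bool)) (i : Fin M) (b : Bool)
    (c : Fin w × List Bool) : Fin w × List Bool :=
  if P.ask i c.1 b then
    (P.next i c.1 b (decide (c.2 ++ (P.write i c.1 b).toList ∈ A)), [])
  else (P.next i c.1 b false, c.2 ++ (P.write i c.1 b).toList)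

/-- the state and the contents of the query tape before step `i`, on the input `x` (nothing changes
after step `M`) -/
noncomputable def OProg.config (P : OProg n M w) (A : Set (List Bool)) (x : Inp n) :
    ℕ → Fin w × List Bool
  | 0 => (P.start, [])
  | i + 1 => if h : i < M then
      P.step A ⟨i, h⟩ (readVal x (P.var ⟨i, h⟩ (P.config A x i).1)) (P.config A x i)
    else P.config A x i

/-- the number of steps in which the program reads an input bit -/
noncomputable def OProg.reads (P : OProg n M w) (A : Set (List Bool)) (x : Inp n) : ℕ :=
  (Finset.univ.filter fun i : Fin M => P.var i (P.config A x i).1 ≠ none).card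

/-- the output of the program with the oracle `A` -/
noncomputable def OProg.eval (P : OProg n M w) (A : Set (List Bool)) (x : Inp n) : Bool :=
  P.acc (P.config A x M).1

/-- `f` is computed with the oracle `A` by a deterministic oracle program with `M` steps and `w`
states which reads an input bit in at most `T` steps, on every input -/
def DetO (A : Set (List Bool)) (f : Inp n → Bool) (M T w : ℕ) : Prop :=
  ∃ P : OProg n M w, (∀ x, P.reads A x ≤ T) ∧ ∀ x, P.eval A x = f x

/-- the same with one-sided error: the program may depend on `ρ` uniform random bits `c`; if
`f x = 1` it accepts with probability at least `1/2`, if `f x = 0` it never accepts. -/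
def OneSidedO (A : Set (List Bool)) (f : Inp n → Bool) (M T w : ℕ) : Prop :=
  ∃ (ρ : ℕ) (P : (Fin ρ → Bool) → OProg n M w), (∀ c x, (P c).reads A x ≤ T) ∧
    (∀ x, f x = true → 2 ^ ρ ≤ 2 * (Finset.univ.filter fun c => (P c).eval A x = true).card) ∧
    ∀ x, f x = false → ∀ c, (P c).eval A x = false

/-- the same with two-sided error `1/3` -/
def TwoSidedO (A : Set (List Bool)) (f : Inp n → Bool) (M T w : ℕ) : Prop :=
  ∃ (ρ : ℕ) (P : (Fin ρ → Bool) → OProg n M w), (∀ c x, (P c).reads A x ≤ T) ∧
    ∀ x, 2 * 2 ^ ρ ≤ 3 * (Finset.univ.filter fun c => (P c).eval A x = f x).card

/-- The oracle has at most `c` words of each length. -/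
def AtMostPerLength (A : Set (List Bool)) (c : ℕ) : Prop :=
  ∀ m : ℕ, {q ∈ A | q.length = m}.ncard ≤ c

end Pool.Agent.SparseTS
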