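import Pool.Agent.Lib.MP_69a69c_lc_TS.Trie

/-!
# Programs with a sparse oracle can be simulated without oracle and without silent steps

The simulating program keeps the clock, the state and the node of the trie of the oracle. The steps
in which the input is not read are compressed.
-/

set_option autoImplicit false

namespace Pool.Agent.SparseTS

open Pool.Agent.LT

variable {n M w : ℕ}

/-- clock, state and node of the trie -/
abbrev Cf (w : ℕ) (A : Set (List Bool)) (M : ℕ) := Fin (M + 1) × St w A M

variable {A : Set (List Bool)}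

/-- one step, with the clock -/
noncomputable def rstep (P : OProg n M w) (A : Set (List Bool)) (b : Bool) (r : Cf w A M) :
    Cf w A M :=
  if h : (r.1 : ℕ) < M then (⟨r.1 + 1, by omega⟩, sstep P A ⟨r.1, h⟩ b r.2) else r

/-- the variable which is read next, if any -/
def rvar (P : OProg n M w) (r : Cf w A M) : Option (Fin n) :=
  if h : (r.1 : ℕ) < M then P.var ⟨r.1, h⟩ r.2.1 else none

open Classical in
/-- do silent steps until the input is read or the computation is over -/
noncomputable def adv (P : OProg n M w) (A : Set (List Bool)) : ℕ → Cf w A M → Cf w A M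
  | 0, r => r
  | f + 1, r => if rvar P r = none then adv P A f (rstep P A false r) else r

/-- the computation on the input `x` -/
noncomputable def traj (P : OProg n M w) (A : Set (List Bool)) (x : Inp n) (i : ℕ) : Cf w A M :=
  (⟨min i M, by omega⟩, red A M (P.config A x i))

theorem traj_of_le (P : OProg n M w) (A : Set (List Bool)) (x : Inp n) {i : ℕ} (hi : M ≤ i) :
    traj P A x i = traj P A x M := by
  have h : ∀ j, P.config A x (M + j) = P.config A x M := by
    intro j
    induction j with
    | zero => rfl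
    | succ j ih =>
      have e : P.config A x (M + j + 1) = P.config A x (M + j) := dif_neg (by omega)
      rw [← add_assoc, e, ih]
  obtain ⟨j, rfl⟩ := Nat.exists_eq_add_of_le hi
  unfold traj
  rw [h j]
  congr 1
  exact Fin.ext (by simp)

theorem rvar_traj (P : OProg n M w) (A : Set (List Bool)) (x : Inp n) {i : ℕ} (hi : i < M) :
    rvar P (traj P A x i) = P.var ⟨i, hi⟩ (P.config A x i).1 := by
  have h1 : ((traj P A x i).1 : ℕ) = i := by simp [traj, hi.le]
  unfold rvar
  rw [dif_pos (by rw [h1]; exact hi)]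
  have h2 : (⟨((traj P A x i).1 : ℕ), by rw [h1]; exact hi⟩ : Fin M) = ⟨i, hi⟩ := Fin.ext h1
  rw [h2]
  rfl

theorem rstep_traj (P : OProg n M w) (A : Set (List Bool)) (x : Inp n) {i : ℕ} (hi : i < M) :
    rstep P A (readVal x (rvar P (traj P A x i))) (traj P A x i) = traj P A x (i + 1) := by
  rw [rvar_traj P A x hi]
  have h1 : ((traj P A x i).1 : ℕ) = i := by simp [traj, hi.le]
  unfold rstep
  rw [dif_pos (by rw [h1]; exact hi)]
  have h2 : (⟨((traj P A x i).1 : ℕ), by rw [h1]; exact hi⟩ : Fin M) = ⟨i, hi⟩ := Fin.ext h1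
  rw [h2]
  have e : P.config A x (i + 1) =
      P.step A ⟨i, hi⟩ (readVal x (P.var ⟨i, hi⟩ (P.config A x i).1)) (P.config A x i) :=
    dif_pos hi
  have h3 := length_config P A x i
  rw [min_eq_left hi.le] at h3
  refine Prod.ext (Fin.ext ?_) ?_
  · simp only [h1]
    unfold traj
    simp only
    omega
  · change sstep P A ⟨i, hi⟩ _ (red A M (P.config A x i)) = red A M (P.config A x (i + 1))
    rw [e, red_step P A ⟨i, hi⟩ _ _ h3]

/-- the number of readings before step `j` -/
noncomputable def cnt (P : OProg n M w) (A : Set (List Bool)) (x : Inp n) (j : ℕ) : ℕ :=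
  (Finset.univ.filter fun i : Fin M => (i : ℕ) < j ∧ P.var i (P.config A x i).1 ≠ none).card

theorem cnt_silent (P : OProg n M w) (A : Set (List Bool)) (x : Inp n) {j : ℕ} (hj : j < M)
    (h : rvar P (traj P A x j) = none) : cnt P A x (j + 1) = cnt P A x j := by
  rw [rvar_traj P A x hj] at h
  unfold cnt
  congr 1
  ext i
  simp only [Finset.mem_filter, Finset.mem_univ, true_and]
  constructor
  · rintro ⟨h1, h2⟩
    refine ⟨?_, h2⟩
    by_contra h3
    have h4 : i = ⟨j, hj⟩ := Fin.ext (by simp only; omega)
    subst h4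
    exact h2 h
  · rintro ⟨h1, h2⟩
    exact ⟨by omega, h2⟩

theorem cnt_reading (P : OProg n M w) (A : Set (List Bool)) (x : Inp n) {j : ℕ} (hj : j < M)
    (h : rvar P (traj P A x j) ≠ none) : cnt P A x (j + 1) = cnt P A x j + 1 := by
  classical
  rw [rvar_traj P A x hj] at h
  unfold cnt
  have h5 : (Finset.univ.filter fun i : Fin M => (i : ℕ) < j + 1 ∧
      P.var i (P.config A x i).1 ≠ none) =
      insert ⟨j, hj⟩ (Finset.univ.filter fun i : Fin M => (i : ℕ) < j ∧
        P.var i (P.config A x i).1 ≠ none) := by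
    ext i
    simp only [Finset.mem_filter, Finset.mem_univ, true_and, Finset.mem_insert]
    constructor
    · rintro ⟨h1, h2⟩
      by_cases h3 : (i : ℕ) = j
      · exact Or.inl (Fin.ext h3)
      · exact Or.inr ⟨by omega, h2⟩
    · rintro (rfl | ⟨h1, h2⟩)
      · exact ⟨Nat.lt_succ_self _, h⟩
      · exact ⟨by omega, h2⟩
  rw [h5, Finset.card_insert_of_notMem]
  simp

theorem cnt_le (P : OProg n M w) (A : Set (List Bool)) (x : Inp n) (j : ℕ) :
    cnt P A x j ≤ P.reads A x := by
  unfold cnt OProg.reads
  refine Finset.card_le_card fun i hi => ?_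
  simp only [Finset.mem_filter, Finset.mem_univ, true_and] at hi ⊢
  exact hi.2

/-- the silent steps lead to the next reading or to the end -/
theorem adv_traj (P : OProg n M w) (A : Set (List Bool)) (x : Inp n) (f j : ℕ) (hj : j ≤ M)
    (hf : M ≤ j + f) :
    ∃ j' ≤ M, adv P A f (traj P A x j) = traj P A x j' ∧ cnt P A x j' = cnt P A x j ∧
      (j' = M ∨ j' < M ∧ rvar P (traj P A x j') ≠ none) := by
  classical
  induction f generalizing j with
  | zero => exact ⟨j, hj, rfl, rfl, Or.inl (by omega)⟩
  | succ f ih =>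
    by_cases h : rvar P (traj P A x j) = none
    · have e : adv P A (f + 1) (traj P A x j) = adv P A f (rstep P A false (traj P A x j)) :=
        if_pos h
      rcases Nat.lt_or_ge j M with hj2 | hj2
      · have e2 : rstep P A false (traj P A x j) = traj P A x (j + 1) := by
          have := rstep_traj P A x hj2
          rwa [h] at this
        obtain ⟨j', h1, h2, h3, h4⟩ := ih (j + 1) hj2 (by omega)
        refine ⟨j', h1, ?_, ?_, h4⟩
        · rw [e, e2, h2]
        · rw [h3, cnt_silent P A x hj2 h]
      · have hjM : j = M := le_antisymm hj hj2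
        subst hjM
        have e2 : rstep P A false (traj P A x j) = traj P A x j := by
          unfold rstep
          rw [dif_neg]
          simp [traj]
        obtain ⟨j', h1, h2, h3, h4⟩ := ih j le_rfl (by omega)
        exact ⟨j', h1, by rw [e, e2, h2], h3, h4⟩
    · have e : adv P A (f + 1) (traj P A x j) = traj P A x j := if_neg h
      rcases Nat.lt_or_ge j M with hj2 | hj2
      · exact ⟨j, hj, e, rfl, Or.inr ⟨hj2, h⟩⟩
      · exact ⟨j, hj, e, rfl, Or.inl (le_antisymm hj hj2)⟩

open Classical in
/-- A program with `M` steps, `w` states, at most `T` readings and an oracle which has at most `c`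
words of each length is simulated by a program without oracle of length `T` and width
`(M + 1) w (c (M + 1)² + 1)`. -/
theorem simulate (P : OProg n M w) {A : Set (List Bool)} {c T : ℕ} (hn : 1 ≤ n)
    (hA : AtMostPerLength A c) (hT : ∀ x, P.reads A x ≤ T) :
    ∃ Q : Prog n T ((M + 1) * (w * (c * (M + 1) ^ 2 + 1))), ∀ x, Q.eval x = P.eval A x := by
  have hcard : Fintype.card (Cf w A M) ≤ (M + 1) * (w * (c * (M + 1) ^ 2 + 1)) := by
    rw [Fintype.card_prod, Fintype.card_prod, Fintype.card_fin, Fintype.card_fin,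
      Fintype.card_option, Fintype.card_coe]
    exact Nat.mul_le_mul_left _ (Nat.mul_le_mul_left _ (Nat.succ_le_succ (card_nodes hA M)))
  obtain ⟨φ⟩ : Nonempty (Cf w A M ↪ Fin ((M + 1) * (w * (c * (M + 1) ^ 2 + 1)))) :=
    Function.Embedding.nonempty_of_card_le (by rwa [Fintype.card_fin])
  have hne : Nonempty (Cf w A M) := ⟨(0, P.start, none)⟩
  set ψ : Fin ((M + 1) * (w * (c * (M + 1) ^ 2 + 1))) → Cf w A M := Function.invFun φ with hψ
  have hl : ∀ s, ψ (φ s) = s := Function.leftInverse_invFun φ.injective
  let step2 : Bool → Cf w A M → Cf w A M := fun b r =>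
    if rvar P r = none then r else adv P A M (rstep P A b r)
  let Q : Prog n T ((M + 1) * (w * (c * (M + 1) ^ 2 + 1))) :=
    { start := φ (adv P A M (0, red A M (P.start, [])))
      var := fun _ t => (rvar P (ψ t)).getD ⟨0, hn⟩
      next := fun _ t b => φ (step2 b (ψ t))
      acc := fun t => P.acc (ψ t).2.1 }
  have key : ∀ x, ∀ k ≤ T, ∃ j ≤ M, Q.state x k = φ (traj P A x j) ∧
      (j = M ∨ j < M ∧ rvar P (traj P A x j) ≠ none ∧ cnt P A x j = k) := by
    intro x k
    induction k with
    | zero =>
      intro _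
      have e0 : traj P A x 0 = (0, red A M (P.start, [])) := by
        unfold traj
        refine Prod.ext (Fin.ext ?_) rfl
        simp
      obtain ⟨j, h1, h2, h3, h4⟩ := adv_traj P A x M 0 (Nat.zero_le _) (by omega)
      refine ⟨j, h1, ?_, ?_⟩
      · change φ (adv P A M (0, red A M (P.start, []))) = _
        rw [← e0, h2]
      · have h5 : cnt P A x 0 = 0 := by
          unfold cnt
          simp
        rcases h4 with h4 | h4
        · exact Or.inl h4
        · exact Or.inr ⟨h4.1, h4.2, by omega⟩
    | succ k ih =>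
      intro hk
      obtain ⟨j, h1, h2, h3⟩ := ih (by omega)
      have e2 : Q.state x (k + 1) =
          Q.next ⟨k, hk⟩ (Q.state x k) (x (Q.var ⟨k, hk⟩ (Q.state x k))) := dif_pos hk
      rw [e2, h2]
      change ∃ j' ≤ M, φ (step2 (x ((rvar P (ψ (φ (traj P A x j)))).getD ⟨0, hn⟩))
        (ψ (φ (traj P A x j)))) = _ ∧ _
      rw [hl]
      rcases h3 with rfl | ⟨h3, h4, h5⟩
      · refine ⟨j, le_rfl, ?_, Or.inl rfl⟩
        have h6 : rvar P (traj P A x j) = none := by
          unfold rvar
          rw [dif_neg]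
          simp [traj]
        simp only [step2, h6, if_true]
      · obtain ⟨v, hv⟩ := Option.ne_none_iff_exists'.1 h4
        have h6 := rstep_traj P A x h3
        rw [hv] at h6
        obtain ⟨j', h7, h8, h9, h10⟩ := adv_traj P A x M (j + 1) h3 (by omega)
        refine ⟨j', h7, ?_, ?_⟩
        · simp only [step2, hv, Option.getD_some, reduceCtorEq, if_false]
          rw [← h8, ← h6]
          rfl
        · rcases h10 with h10 | h10
          · exact Or.inl h10
          · refine Or.inr ⟨h10.1, h10.2, ?_⟩
            rw [h9, cnt_reading P A x h3 h4, h5]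
  refine ⟨Q, fun x => ?_⟩
  obtain ⟨j, h1, h2, h3⟩ := key x T le_rfl
  have hjM : j = M := by
    rcases h3 with h3 | ⟨h3, h4, h5⟩
    · exact h3
    · exfalso
      have h6 := cnt_reading P A x h3 h4
      have h7 := cnt_le P A x (j + 1)
      have h8 := hT x
      omega
  subst hjM
  change P.acc (ψ (Q.state x T)).2.1 = P.acc (P.config A x j).1
  rw [h2, hl]
  rfl

variable {A : Set (List Bool)} {c T : ℕ}

theorem oneSided_of_oneSidedO (hn : 1 ≤ n) (hA : AtMostPerLength A c)
    {f : Inp n → Bool} (h : OneSidedO A f M T w) :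
    OneSided f T ((M + 1) * (w * (c * (M + 1) ^ 2 + 1))) := by
  obtain ⟨ρ, P, h0, h1, h2⟩ := h
  choose Q hQ using fun r => simulate (P r) hn hA (h0 r)
  refine ⟨ρ, Q, ?_, ?_⟩
  · intro x hx
    simpa only [hQ] using h1 x hx
  · intro x hx r
    rw [hQ]
    exact h2 x hx r

theorem twoSided_of_twoSidedO (hn : 1 ≤ n) (hA : AtMostPerLength A c)
    {f : Inp n → Bool} (h : TwoSidedO A f M T w) :
    TwoSided f T ((M + 1) * (w * (c * (M + 1) ^ 2 + 1))) := by
  obtain ⟨ρ, P, h0, h1⟩ := h
  choose Q hQ using fun r => simulate (P r) hn hA (h0 r)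
  refine ⟨ρ, Q, ?_⟩
  intro x
  simpa only [hQ] using h1 x

theorem twoSidedO_of_detO {f : Inp n → Bool} (h : DetO A f M T w) : TwoSidedO A f M T w := by
  obtain ⟨P, h0, hP⟩ := h
  refine ⟨0, fun _ => P, fun _ => h0, fun x => ?_⟩
  simp [hP x]

end Pool.Agent.SparseTS
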